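import Pool.Agent.MP_a32717_an.Aff.Fin

/-! The optimal Hermite-Hadamard constant for the `p`-th powers of nonnegative affine functions on
convex domains of `ℝ^n` is `n (p + 1) / (n + p)`. -/

open MeasureTheory Set

namespace Pool.Agent.Results.MP_a32717_an.AffinePowers

theorem result (n : ℕ) (hn : 2 ≤ n) (p : ℝ) (hp : 1 ≤ p) :
    IsLeast {c : ℝ | ∀ (Ω : Set (EuclideanSpace ℝ (Fin n))) (a : Fin n → ℝ) (b : ℝ),
      IsOpen Ω → Bornology.IsBounded Ω → Convex ℝ Ω → Ω.Nonempty →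
      (∀ x ∈ Ω, 0 ≤ ∑ i, a i * x i + b) →
      ⨍ x in Ω, (∑ i, a i * x i + b) ^ p ∂volume ≤
        c * ⨍ x in frontier Ω, (∑ i, a i * x i + b) ^ p ∂(Measure.hausdorffMeasure ((n : ℝ) - 1))}
      (n * (p + 1) / (n + p)) :=
  Pool.Agent.MP_a32717_an.Aff.least hn hp

end Pool.Agent.Results.MP_a32717_an.AffinePowers
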