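import Pool.Agent.MP_a32717_an.Aff.Quad

/-! The optimal Hermite-Hadamard constant for nonnegative convex polynomials of degree at most two
on convex domains of the plane is `1 + 1 / √3`. -/

open MeasureTheory Set

namespace Pool.Agent.Results.MP_a32717_an.PlaneQuadratics

theorem result :
    IsLeast {k : ℝ | ∀ (Ω : Set (EuclideanSpace ℝ (Fin 2))) (f : EuclideanSpace ℝ (Fin 2) → ℝ),
      IsOpen Ω → Bornology.IsBounded Ω → Convex ℝ Ω → Ω.Nonempty →
      (∃ a b c d e g : ℝ, ∀ x,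
        f x = a * x 0 ^ 2 + b * x 0 * x 1 + c * x 1 ^ 2 + d * x 0 + e * x 1 + g) →
      (∀ x ∈ Ω, 0 ≤ f x) → ConvexOn ℝ Ω f →
      ⨍ x in Ω, f x ∂volume ≤ k * ⨍ x in frontier Ω, f x ∂(Measure.hausdorffMeasure 1)}
      (1 + 1 / Real.sqrt 3) :=
  Pool.Agent.MP_a32717_an.Aff.quad

end Pool.Agent.Results.MP_a32717_an.PlaneQuadratics
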