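import Pool.Agent.MP_a32717_an.Sym.Upper

/-! The optimal Hermite-Hadamard constant for convex functions on centrally symmetric convex
domains of `ℝ^n` is `n - 1`. -/

open MeasureTheory Set

namespace Pool.Agent.Results.MP_a32717_an.SymmetricSharp

theorem result (n : ℕ) (hn : 2 ≤ n) :
    IsLeast {c : ℝ | ∀ (Ω : Set (EuclideanSpace ℝ (Fin n))) (f : EuclideanSpace ℝ (Fin n) → ℝ),
      IsOpen Ω → Bornology.IsBounded Ω → Convex ℝ Ω → Ω.Nonempty →
      (∃ p, ∀ x, p + x ∈ Ω → p - x ∈ Ω) →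
      ContinuousOn f (closure Ω) → (∀ x ∈ closure Ω, 0 ≤ f x) → ConvexOn ℝ Ω f →
      ⨍ x in Ω, f x ∂volume ≤
        c * ⨍ x in frontier Ω, f x ∂(Measure.hausdorffMeasure ((n : ℝ) - 1))} ((n : ℝ) - 1) := by
  constructor
  · rintro Ω f ho hb - hne ⟨p, hp⟩ cf fn hf
    obtain ⟨k, rfl⟩ : ∃ k, n = k + 2 := ⟨n - 2, by omega⟩
    obtain ⟨h1, h2⟩ := Pool.Agent.MP_a32717_an.Sym.upper (k := k) (by simp) ho hb hne hp cf hf
    have e : ((k + 2 : ℕ) : ℝ) - 1 = ((k + 1 : ℕ) : ℝ) := by push_cast; ring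
    have := mul_nonneg (k.cast_nonneg (α := ℝ)) (fn p (subset_closure h1))
    rw [e]
    rw [← Nat.cast_succ] at h2
    linarith
  · intro c hc
    by_contra h
    obtain ⟨Ω, f, h1, h2, h3, h4, h5, h6, h7, h8, h9⟩ :=
      Pool.Agent.MP_a32717_an.Sym.lower hn (not_le.1 h)
    exact h9.not_ge (hc Ω f h1 h2 h3 h4 ⟨0, fun x hx => by simpa using h5 x (by simpa using hx)⟩
      h6.continuousOn (fun x _ => h7 x) (h8.subset (subset_univ _) h3))

end Pool.Agent.Results.MP_a32717_an.SymmetricSharp
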